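import Pool.Agent.Lib.helper3.BarnesD

open Complex Filter Asymptotics

namespace Pool.Agent.Results.MP_047497_nt.LiouvilleWeights

/-- `F` is the (meromorphically continued) Barnes multiple zeta function `ζ_r(s; a, w)`:
it is meromorphic on the whole plane, holomorphic away from `s = 1, …, r`, and for `Re s > r`
it is the sum of `(a + m · w) ^ (-s)` over all `m ∈ ℕ ^ r`. -/
def IsBarnesZeta (r : ℕ) (a : ℝ) (w : Fin r → ℝ) (F : ℂ → ℂ) : Prop :=
  Meromorphic F ∧
  DifferentiableOn ℂ F {s : ℂ | ∀ j : ℕ, 1 ≤ j → j ≤ r → s ≠ (j : ℂ)} ∧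
  ∀ s : ℂ, (r : ℝ) < s.re →
    HasSum (fun m : Fin r → ℕ => ((a + ∑ j, (m j : ℝ) * w j : ℝ) : ℂ) ^ (-s)) (F s)

theorem result :
    ∃ (r : ℕ) (a : ℝ) (w : Fin r → ℝ) (F : ℂ → ℂ) (k : ℕ) (ε σ : ℝ),
      1 ≤ r ∧ 0 < a ∧ (∀ j, 0 < w j) ∧ IsBarnesZeta r a w F ∧ 1 ≤ k ∧ 0 < ε ∧
      (r : ℝ) - (Module.finrank ℚ (Submodule.span ℚ (Set.range w)) : ℝ) / 2 ≤ σ ∧
      ¬ (fun T : ℝ => ∫ t in (1:ℝ)..T, ‖F ((σ : ℂ) + (t : ℂ) * I)‖ ^ (2 * k)) =O[atTop]
        (fun T : ℝ => T ^ (1 + ε)) := by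
  set α : ℝ := liouvilleNumber (2 : ℕ) with hαdef
  have hL : Liouville α := liouville_liouvilleNumber le_rfl
  have hα : 0 < α := by
    rw [hαdef, liouvilleNumber]
    exact (LiouvilleNumber.summable (by norm_num)).tsum_pos (fun i => by positivity) 0
      (by positivity)
  obtain ⟨B, hB, hser, hdec⟩ := Pool.Agent.H3Barnes.exists_F hα
  have hdiff : ∀ s : ℂ, s ≠ 1 → s ≠ 2 →
      DifferentiableAt ℂ (fun s => B s / ((s - 1) * (s - 2))) s := fun s h1 h2 =>
    (hB s).div (by fun_prop) (mul_ne_zero (sub_ne_zero.mpr h1) (sub_ne_zero.mpr h2))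
  refine ⟨2, 1, ![1, α], fun s => B s / ((s - 1) * (s - 2)), 1, 1 / 4, 1, by norm_num, one_pos,
    ?_, ⟨?_, ?_, ?_⟩, le_rfl, by norm_num, ?_, ?_⟩
  · intro j; fin_cases j <;> simp [hα]
  · intro s
    exact (hB.analyticAt s).meromorphicAt.div (AnalyticAt.meromorphicAt (by fun_prop))
  · intro s hs
    have h1 := hs 1 le_rfl (by norm_num)
    have h2 := hs 2 (by norm_num) le_rfl
    exact (hdiff s (by simpa using h1) (by simpa using h2)).differentiableWithinAt
  · intro s hs
    have hs' : 2 < s.re := by simpa using hs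
    beta_reduce
    rw [hser s hs']
    have h := (Pool.Agent.H3Barnes.zeta_summable hα hs').hasSum
    rw [← (finTwoArrowEquiv ℕ).hasSum_iff] at h
    refine (congrArg (fun f => HasSum f _) (funext fun m => ?_)).mpr h
    simp [Pool.Agent.H3Barnes.lam, Fin.sum_univ_two]
  · have hli : LinearIndependent ℚ ![(1:ℝ), α] := by
      rw [LinearIndependent.pair_iff]
      intro p q hpq
      by_cases hq : q = 0
      · subst hq; simpa using hpq
      · exfalso
        apply hL.irrational
        refine ⟨-p / q, ?_⟩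
        have hq' : (q:ℝ) ≠ 0 := by exact_mod_cast hq
        simp only [Rat.smul_def, mul_one] at hpq
        push_cast
        field_simp
        linarith
    rw [finrank_span_eq_card hli]
    norm_num
  · have := Pool.Agent.H3Barnes.main hα hL (fun s => B s / ((s - 1) * (s - 2))) hdec ?_
    · rw [show (1:ℝ) + 1 / 4 = 5 / 4 by norm_num]
      simpa using this
    · intro t ht
      have ht' : (1:ℝ) ≤ t := ht
      refine ContinuousAt.continuousWithinAt ?_
      refine ContinuousAt.comp (f := fun t : ℝ => (1:ℂ) + t * I)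
        (hdiff _ ?_ ?_).continuousAt (by fun_prop)
      · intro h; have := congrArg im h; simp at this; linarith
      · intro h; have := congrArg im h; simp at this; linarith

end Pool.Agent.Results.MP_047497_nt.LiouvilleWeights
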